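import Pool.Agent.Work.MP_66fdf3_co.Full.Two

namespace Pool.Agent.Results.MP_66fdf3_co.Full

open Pool.Agent.Work.MP_66fdf3_co

/-- Complete classification: the Cayley table of a finite group has a near-orthogonal mate if and only if
the commutator subgroup has even order (or the group has order two, the degenerate case). -/
theorem result (G : Type) [Group G] [Finite G] :
    HasNearOrthogonalMate G ↔ Even (Nat.card (commutator G)) ∨ Nat.card G = 2 :=
  Pool.Agent.Work.MP_66fdf3_co.Full.main_all G

end Pool.Agent.Results.MP_66fdf3_co.Full
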